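import Pool.Agent.H.MP_08a145_lc.A

set_option autoImplicit false

namespace Pool.Agent.Results.MP_08a145_lc.Yes

open Set Function MeasureTheory Pool.Agent.H.MP_08a145_lc

/-- The Hilbert cube with the product topology. -/
abbrev Q := ℕ → Icc (0 : ℝ) 1

/-- The homeomorphisms of a compact space, inside `C(X, X)` with the compact-open topology. -/
def H (X : Type) [TopologicalSpace X] : Set C(X, X) := {f | Bijective f}

/-- Haar null in the sense of Christensen, with two-sided translates. -/
def HaarNull {X : Type} [TopologicalSpace X] (G : Set C(X, X)) (A : Set G) : Prop :=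
  ∃ B : Set G, A ⊆ B ∧ @MeasurableSet G (borel G) B ∧ ∃ μ : @Measure G (borel G),
    IsProbabilityMeasure μ ∧ ∀ g h : G, μ {x : G | ∃ b ∈ B, x.1 = g.1.comp (b.1.comp h.1)} = 0

/-- `G` is the disjoint union of a Haar null set and a meagre set. -/
def Splits {X : Type} [TopologicalSpace X] (G : Set C(X, X)) : Prop :=
  ∃ A M : Set G, Disjoint A M ∧ A ∪ M = univ ∧ HaarNull G A ∧ IsMeagre M

theorem result : Splits (H Q) := by
  let _ := borel (H Q)
  let _ := TopologicalSpace.metrizableSpaceMetric Q
  obtain ⟨B, h1, h2, h3⟩ := @decomp2 _ _ _ (H Q) (fun _ h => h) _ flow.curry.continuous flow_add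
    flow_bij _ flow_ne _ ⟨rfl⟩
  exact ⟨B, _, disjoint_compl_right, union_compl_self _, ⟨B, subset_rfl, h2, h3⟩, h1⟩

end Pool.Agent.Results.MP_08a145_lc.Yes
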